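import Pool.Agent.W394.BQN.Stm

/-!
Project BQN: base change for the iterated affine modifications.
-/

set_option autoImplicit false

open Polynomial

noncomputable section

namespace Pool.Agent.W40.BQN

open BQ Pool.Agent.W394.BQN

/-- reduction of a mapped polynomial along an equivalence -/
theorem map_symm {V C C' : Type} [CommRing V] [CommRing C] [CommRing C'] (e : C ≃+* C')
    (j : V →+* C) (j' : V →+* C') (hj : ∀ v, e (j v) = j' v) (f : V[X]) :
    (f.map j').map (e.symm : C' →+* C) = f.map j := by
  rw [Polynomial.map_map]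
  congr 1
  ext v
  show e.symm (j' v) = j v
  rw [← hj, e.symm_apply_apply]

/-- transport of `LocRel` -/
theorem transport {V C C' Ω : Type} [CommRing V] [IsDomain V] [CommRing C] [CommRing C']
    [CommRing Ω] (e : C ≃+* C') (j : V →+* C) (ι : C[X] →+* Ω) (h : LocRel j ι)
    (j' : V →+* C') (hj : ∀ v, e (j v) = j' v) :
    LocRel j' (ι.comp (Polynomial.mapRingHom (e.symm : C' →+* C))) where
  inj := by
    rw [RingHom.coe_comp]
    refine h.inj.comp ?_
    show Function.Injective (Polynomial.map (e.symm : C' →+* C))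
    exact Polynomial.map_injective _ e.symm.injective
  unit := by
    intro f hf
    rw [RingHom.comp_apply]
    show IsUnit (ι ((f.map j').map (e.symm : C' →+* C)))
    rw [map_symm e j j' hj]
    exact h.unit f hf
  frac := by
    intro z
    obtain ⟨f, hf, c, hc⟩ := h.frac z
    refine ⟨f, hf, c.map (e : C →+* C'), ?_⟩
    rw [RingHom.comp_apply, RingHom.comp_apply]
    show ι ((f.map j').map (e.symm : C' →+* C)) * z =
      ι ((c.map (e : C →+* C')).map (e.symm : C' →+* C))
    rw [map_symm e j j' hj, hc, Polynomial.map_map]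
    congr 1
    have : ((e.symm : C' →+* C).comp (e : C →+* C')) = RingHom.id C := by
      ext x
      exact e.symm_apply_apply x
    rw [this, Polynomial.map_id]

theorem t_LG (h : S_ND) : S_LG := by
  intro n
  induction n with
  | zero =>
    intro V D _ _ _ _ j hG
    obtain ⟨k, e, he⟩ := hG
    refine ⟨e.symm.toMulEquiv.isDomain _, ?_⟩
    obtain ⟨ι', h1, h2, -⟩ := locRel_mv (RingHom.id V) (algebraMap V[X] (VV V)) (locRel_base V) k
    refine ⟨MvPolynomial (Fin k) (VV V), inferInstance, inferInstance,
      ι'.comp (Polynomial.mapRingHom (e.symm : D →+* MvPolynomial (Fin k) V)),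
      MvPolynomial.C, ?_, ?_, ?_⟩
    · exact transport e _ ι' h1 j (fun v => he v)
    · exact ⟨k, RingEquiv.refl _, fun v => rfl⟩
    · intro f
      show MvPolynomial.C (algebraMap V[X] (VV V) f) =
        ι' ((f.map j).map (e.symm : D →+* MvPolynomial (Fin k) V))
      rw [map_symm e MvPolynomial.C j he, h2]
  | succ n ih =>
    intro V D _ _ _ _ j hG
    obtain ⟨C, hC, j₀, u, e, hg, hn, he⟩ := hG
    obtain ⟨hdom, Ω, hΩ, hΩd, ι, j', hL, hgood, hcomp⟩ := ih V C j₀ hg
    have hu : u ≠ 0 := hn.1
    have hNd : IsDomain (Node C u) := Node.isDomain u hu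
    refine ⟨e.symm.toMulEquiv.isDomain _, ?_⟩
    obtain ⟨ι', h1, h2, -⟩ := locRel_node j₀ u hu ι hL (ι (Polynomial.C u)) rfl
    have hu' : ι (Polynomial.C u) ≠ 0 := by
      intro h0
      have h3 := hL.inj (h0.trans (map_zero ι).symm)
      exact hu (Polynomial.C_eq_zero.1 h3)
    refine ⟨Node Ω (ι (Polynomial.C u)), inferInstance, Node.isDomain _ hu',
      ι'.comp (Polynomial.mapRingHom (e.symm : D →+* Node C u)),
      (Node.j (ι (Polynomial.C u))).comp j', ?_, ?_, ?_⟩
    · exact transport e _ ι' h1 j (fun v => he v)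
    · exact ⟨Ω, hΩ, j', ι (Polynomial.C u), RingEquiv.refl _, hgood,
        h V C Ω j₀ ι j' hL hcomp u hn, fun v => rfl⟩
    · intro f
      show Node.j (ι (Polynomial.C u)) (j' (algebraMap V[X] (VV V) f)) =
        ι' ((f.map j).map (e.symm : D →+* Node C u))
      rw [map_symm e ((Node.j u).comp j₀) j he, hcomp, ← Polynomial.map_map, h2]

end Pool.Agent.W40.BQN
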